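import Pool.Agent.H.MP_fdcf9c_lc.D

set_option autoImplicit false

namespace Pool.Agent.Results.MP_fdcf9c_lc.NotOne

open Filter Finset Polynomial Pool.Agent.H.MP_fdcf9c_lc Pool.Agent.Lib.helper21.PR

/-- `e` codes the elements by numbers and `g : α → β` is tracked by a `Partrec` map. -/
def Tracks {α β γ δ : Type} [Primcodable γ] [Primcodable δ] (e : α → γ) (e' : β → δ)
    (g : α → β) : Prop :=
  ∃ φ : γ →. δ, Partrec φ ∧ ∀ x, e' (g x) ∈ φ (e x)

/-- A presentation of `F` as a computable field: domain `range e ⊆ ℕ` computable, operations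
computable on the domain. -/
structure CompField (F : Type) [Field F] where
  e : F → ℕ
  inj : e.Injective
  dom : ComputablePred (· ∈ Set.range e)
  add : Tracks (Prod.map e e) e fun p => p.1 + p.2
  mul : Tracks (Prod.map e e) e fun p => p.1 * p.2

/-- cohesive sets -/
def Cohesive (C : Set ℕ) : Prop :=
  C.Infinite ∧ ∀ W : Set ℕ, REPred (· ∈ W) → (C \ W).Finite ∨ (C \ Wᶜ).Finite

/-- for almost every `i`: on a set containing `C` up to a finite set -/
def ae (C : Set ℕ) : Filter ℕ := cofinite ⊓ 𝓟 C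

variable {F K : Type} [Field F] [Field K]

/-- the class of `f` modulo almost everywhere equality is that of a `Partrec` map -/
def Rep (c : CompField F) (C : Set ℕ) (g : Germ (ae C) F) : Prop :=
  ∃ φ : ℕ →. ℕ, Partrec φ ∧ ∃ f : ℕ → F, g = f ∧ ∀ᶠ i in ae C, c.e (f i) ∈ φ i

theorem rep₂ {c : CompField F} {C : Set ℕ} {o : F × F → F} (h : Tracks (Prod.map c.e c.e) c.e o)
    {a b : Germ (ae C) F} : Rep c C a → Rep c C b → Rep c C (Germ.map₂ (fun x y => o (x, y)) a b)
  | ⟨φ, p, f, e, k⟩, ⟨ψ, q, g, e', l⟩ => by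
    obtain ⟨χ, r, h⟩ := h
    subst e e'
    exact ⟨fun i => (φ i).bind fun m => (ψ i).bind fun n => χ (m, n), p.bind ((q.comp
      Computable.fst).bind (r.comp ((Computable.snd.comp .fst).pair .snd))), _, rfl,
      (k.and l).mono fun i k => Part.mem_bind k.1 (Part.mem_bind k.2 (h (f i, g i)))⟩

theorem rep₀ (c : CompField F) (C : Set ℕ) (x : F) : Rep c C (x : Germ (ae C) F) :=
  ⟨fun _ => .some (c.e x), (Computable.const _).partrec, fun _ => x, rfl,
    .of_forall fun _ => Part.mem_some _⟩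

/-- The cohesive power, with pointwise operations. -/
def pw (c : CompField F) (C : Set ℕ) : Subring (Germ (ae C) F) where
  carrier := {g | Rep c C g}
  add_mem' := rep₂ c.add
  mul_mem' := rep₂ c.mul
  zero_mem' := rep₀ c C 0
  one_mem' := rep₀ c C 1
  neg_mem' {a} h := (neg_one_mul a : ((-1 : F) : Germ (ae C) F) * a = -a) ▸
    rep₂ c.mul (rep₀ c C (-1)) h

/-- The embedding `[α] ↦ [Ψ ∘ α]` of cohesive powers. -/
def emb (c : CompField F) (d : CompField K) (C : Set ℕ) (Ψ : F →+* K) (h : Tracks c.e d.e Ψ) :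
    pw c C →+* pw d C where
  toFun a := ⟨Germ.map Ψ a.1, by
    obtain ⟨χ, r, h⟩ := h
    obtain ⟨_, φ, p, f, rfl, k⟩ := a
    exact ⟨fun i => (φ i).bind χ, p.bind (r.comp .snd), _, rfl,
      k.mono fun i k => Part.mem_bind k (h _)⟩⟩
  map_one' := Subtype.ext (congrArg Germ.const (map_one Ψ))
  map_zero' := Subtype.ext (congrArg Germ.const (map_zero Ψ))
  map_add' := by
    rintro ⟨_, _, _, f, rfl, _⟩ ⟨_, _, _, g, rfl, _⟩
    exact Subtype.ext (congrArg Germ.ofFun (funext fun i => map_add Ψ (f i) (g i)))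
  map_mul' := by
    rintro ⟨_, _, _, f, rfl, _⟩ ⟨_, _, _, g, rfl, _⟩
    exact Subtype.ext (congrArg Germ.ofFun (funext fun i => map_mul Ψ (f i) (g i)))

theorem pc (c : CompField F) : ∃ _ : Primcodable F, Computable c.e ∧
    ∃ ν : ℕ → F, Computable ν ∧ ∀ x, ν (c.e x) = x := by
  classical
  cases finite_or_infinite F
  · let := Primcodable.ofEquiv _ (Finite.equivFin F)
    obtain ⟨B, hB⟩ := (Set.finite_range c.e).bddAbove
    refine ⟨this, (Primrec.dom_finite _).to_comp, fun n => ((List.range (B + 1)).map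
      (Function.invFun c.e)).getD n 0, c_prim (p_getD (.const _) .id (.const _)), fun x => ?_⟩
    simp [Nat.lt_succ_of_le (hB ⟨x, rfl⟩), Function.leftInverse_invFun c.inj x]
  have k : Computable (Nat.count (· ∈ Set.range c.e)) := (c_sum (f := fun _ k =>
    bif decide (k ∈ Set.range c.e) then 1 else 0) (.cond (c.dom.decide.comp .snd) (.const 1)
      (.const 0)) .id).of_eq fun n => by
      rw [Nat.count_eq_card_filter_range, card_filter]
      exact sum_congr rfl fun k _ => by simp
  have s : ∀ n, ∃ m, m ∈ Set.range c.e ∧ Nat.count (· ∈ Set.range c.e) m = n := fun n =>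
    ⟨_, Nat.nth_mem_of_infinite (Set.infinite_range_of_injective c.inj) n,
      Nat.count_nth_of_infinite (Set.infinite_range_of_injective c.inj) n⟩
  let μ := Equiv.ofBijective (fun x => Nat.count (· ∈ Set.range c.e) (c.e x))
    ⟨fun x y e => c.inj (Nat.count_injective ⟨x, rfl⟩ ⟨y, rfl⟩ e), fun n => by
      obtain ⟨_, ⟨x, rfl⟩, h⟩ := s n
      exact ⟨x, h⟩⟩
  let := Primcodable.ofEquiv _ μ
  obtain ⟨g, g1, g2⟩ := rsel (P := fun n m => m ∈ Set.range c.e ∧ Nat.count _ m = n)
    (rand (rcomp c.dom.to_re .snd) (req (k.comp .snd) .fst)) s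
  exact ⟨this, (g1.comp Primrec.of_equiv.to_comp).of_eq fun x =>
    Nat.count_injective (g2 _).1 ⟨x, rfl⟩ (g2 _).2, fun n => μ.symm (Nat.count _ n),
    Primrec.of_equiv_symm.to_comp.comp k, μ.symm_apply_apply⟩

theorem tr {α β γ : Type} [Primcodable α] [Primcodable β] [Primcodable γ] {e : α → γ} {e' : β → ℕ}
    {g : α → β} {ν : ℕ → β} (h : Tracks e e' g) (a : Computable e) (b : Computable ν)
    (k : ∀ x, ν (e' x) = x) : Computable g :=
  let ⟨_, r, h⟩ := h
  ((r.comp a).map (b.comp .snd).to₂).of_eq_tot fun x => k (g x) ▸ Part.mem_map ν (h x)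

/-- The transcendence degree of the extension of cohesive powers is never `1`. -/
theorem result (C : Set ℕ) (hC : Cohesive C) (F K : Type) [Field F] [Field K] [Algebra F K]
    (c : CompField F) (d : CompField K) (h : Tracks c.e d.e (algebraMap F K))
    (hs : Algebra.IsAlgebraic F K → Algebra.IsSeparable F K) :
    @Algebra.trdeg (pw c C) (pw d C) _ _ (emb c d C (algebraMap F K) h).toAlgebra ≠ 1 := by
  let := (emb c d C (algebraMap F K) h).toAlgebra
  have : (ae C).NeBot := cofinite_inf_principal_neBot_iff.2 hC.1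
  obtain ⟨_, c1, μ, c2, c3⟩ := pc c
  obtain ⟨_, d1, ν, d2, d3⟩ := pc d
  have d4 : Computable (Prod.map d.e d.e) := (d1.comp .fst).pair (d1.comp .snd)
  have : CR K := ⟨tr d.add d4 d2 d3, tr d.mul d4 d2 d3⟩
  let π := Germ.coeRingHom (R := K) (ae C)
  rcases key (tr h c1 d2 d3) hs with ⟨n, s, s1, s2⟩ | ⟨a, b, ha, hb, k⟩
  · have : Algebra.IsAlgebraic (pw c C) (pw d C) := ⟨fun ⟨_, φ, p, f, rfl, k⟩ => by
      let q : ℕ → pw c C := fun j => ⟨(fun i => (s (f i)).getD j 0 :), fun i => (φ i).map
        fun m => c.e ((s (ν m)).getD j 0), p.map (c1.comp ((c_prim (p_getD .id (.const j)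
          (.const 0))).comp (s1.comp (d2.comp .snd)))), _, rfl, k.mono fun i k =>
            (Part.mem_map_iff _).2 ⟨_, k, by rw [d3]⟩⟩
      refine IsIntegral.isAlgebraic ⟨X ^ n + ∑ j ∈ range n, Polynomial.C (q j) * X ^ j,
        monic_X_pow_add (by rw [sum_range]; exact degree_sum_fin_lt _), Subtype.ext ?_⟩
      have := congrArg π (_root_.funext fun i => by simpa using s2 (f i) : f ^ n + ∑ j ∈ range n,
        (fun i => algebraMap F K ((s (f i)).getD j 0)) * f ^ j = 0)
      simp [eval₂_finsetSum] at this ⊢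
      exact this⟩
    simp [trdeg_eq_zero]
  let A : ∀ a : ℕ → K, Computable a → pw d C := fun a h =>
    ⟨a, fun i => .some (d.e (a i)), (d1.comp h).partrec, _, rfl, .of_forall fun _ => Part.mem_some _⟩
  have : AlgebraicIndependent (pw c C) ![A a ha, A b hb] := algebraicIndependent_iff.2 fun p e => by
    choose φ _ f f1 _ using fun m => (p.coeff m).2
    have : π (∑ m ∈ p.support, (fun i => algebraMap F K (f m i)) * (a ^ m 0 * b ^ m 1)) = π 0 := by
      have := congrArg Subtype.val e
      rw [MvPolynomial.aeval_def, MvPolynomial.eval₂_eq'] at this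
      simp only [Fin.prod_univ_two, AddSubmonoidClass.coe_finsetSum, map_sum, map_mul, map_pow,
        map_zero, Subring.coe_mul, Subring.coe_pow] at this ⊢
      convert this using 3
      exacts [(congrArg (Germ.map (algebraMap F K)) (f1 _)).symm, rfl, rfl]
    refine by_contra fun p0 => ?_
    obtain ⟨m, hm⟩ := MvPolynomial.support_nonempty.2 p0
    refine MvPolynomial.mem_support_iff.1 hm (Subtype.ext ((f1 m).trans (Germ.coe_eq.2 ?_)))
    filter_upwards [Germ.coe_eq.1 this, (k (p.degreeOf 0 + p.degreeOf 1 + 1)).filter_mono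
      (inf_le_left.trans_eq Nat.cofinite_eq_atTop)] with i e k
    refine k p.support (f · i) (fun m l => ?_) (by simpa using e) m hm
    have := MvPolynomial.monomial_le_degreeOf 0 l
    have := MvPolynomial.monomial_le_degreeOf 1 l
    omega
  intro e
  simpa [e] using this.cardinalMk_le_trdeg

end Pool.Agent.Results.MP_fdcf9c_lc.NotOne
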